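import Pool.Agent.Helper5.FRC.GoalsG
import Pool.Agent.Helper5.FRB.CertFinal

/-!
# Four odd circuits and one even circuit of arbitrary length: definitions and goals

As in `Helper5.FRC.Defs`: `n` runs along the circuits of a 2-factor, the involution `t` gives the
edges of the complementary perfect matching `M` (after some even circuits have been removed).
`Z` is an even circuit of arbitrary length with arbitrary chords, which is not removed.
-/

set_option autoImplicit false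

namespace Pool.Agent.Helper5.FRD

open Finset
open Pool.Agent.Helper5.FRC

section

variable {V : Type} [DecidableEq V]

/-- The number of fixed points of `P` in `S`. -/
def fx (P : V → V) (S : Finset V) : ℕ := (S.filter fun v => P v = v).card

/-- What has to be found for a state `A, t`: an involution `P` which pairs consecutive vertices,
except some fixed points, a set `Y` closed under `t` and `P` which contains the fixed points of `P`
(no two of them consecutive), such that for two disjoint odd unions `S`, `S'` of circuits the number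
of edges of `t` outside `Y` leaving them is larger than the number of fixed points outside
them. -/
def SolH (n : Equiv.Perm V) (A : Finset V) (t : V → V) : Prop :=
  ∃ (P : V → V) (Y : Finset V), Y ⊆ A ∧
    (∀ v ∈ A, P v ∈ A ∧ P (P v) = v ∧ (P v = v ∨ P v = n v ∨ n (P v) = v)) ∧
    (∀ v ∈ Y, t v ∈ Y ∧ P v ∈ Y) ∧
    (∀ v ∈ A, P v = v → v ∈ Y ∧ P (n v) ≠ n v) ∧
    ∀ S ⊆ A, ∀ S' ⊆ A, Inv n S → Inv n S' → Odd S.card → Odd S'.card → Disjoint S S' →
      fx P A < fx P S + fx P S' + dm t (S \ Y) + dm t (S' \ Y)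

/-- `p` pairs the vertices of `Z` along the circuits. -/
def Alg (n : Equiv.Perm V) (Z : Finset V) (p : V → V) : Prop :=
  Prg Z p ∧ ∀ z ∈ Z, p z = n z ∨ n (p z) = z

/-- `t'` is the pairing of `A \ Z` which one gets from `t` by removing `Z` with the pairing `p`: its
pairs are the ends of the chains `x, t x, p (t x), t (p (t x)), ...`. -/
def Red (A Z : Finset V) (t p t' : V → V) : Prop :=
  Prg (A \ Z) t' ∧
    (∀ K ⊆ A \ Z, ∃ W ⊆ Z, (∀ z ∈ W, p z ∈ W) ∧ dm t (K ∪ W) = dm t' K) ∧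
    ∀ X ⊆ A, (∀ z ∈ X, z ∈ Z → p z ∈ X) → dm t' (X \ Z) ≤ dm t X

/-- Four odd circuits and an even circuit `Z`; all odd unions are left by at least five edges. -/
def Five (n : Equiv.Perm V) (A : Finset V) (t : V → V) (C : Fin 4 → Finset V)
    (Z : Finset V) : Prop :=
  (∀ v, n v ≠ v) ∧ Prg A t ∧ Bl n A t 5 ∧ (∀ i, Cir n (C i)) ∧ (∀ i, Odd (C i).card) ∧
    (∀ i j, i ≠ j → Disjoint (C i) (C j)) ∧ Cir n Z ∧ Even Z.card ∧ (∀ i, Disjoint (C i) Z) ∧
    A = univ.biUnion C ∪ Z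

/-- `q` pairs consecutive vertices of `Z`, except at most two fixed points, which are in `Y` and not
consecutive; `Y` is closed under `t` and, on `Z`, under `q`. -/
def Half (n : Equiv.Perm V) (Z : Finset V) (t q : V → V) (Y : Finset V) : Prop :=
  (∀ v ∈ Z, q v ∈ Z ∧ q (q v) = v ∧ (q v = v ∨ q v = n v ∨ n (q v) = v)) ∧
    (∀ v ∈ Z, q v = v → v ∈ Y ∧ q (n v) ≠ n v) ∧ fx q Z ≤ 2 ∧
    ∀ v ∈ Y, t v ∈ Y ∧ (v ∈ Z → q v ∈ Y)

/-- Closed under `t`, and under `p` on `Z` outside `X`. -/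
def Cl (Z X : Finset V) (t p : V → V) (U : Finset V) : Prop :=
  ∀ x ∈ U, t x ∈ U ∧ (x ∈ Z → x ∉ X → p x ∈ U)

/-- A tail: it leads from `v ∈ X` to `e` outside `Z`, and does not meet `X` again. -/
def Tl (A Z X : Finset V) (t p : V → V) (v e : V) (U : Finset V) : Prop :=
  U ⊆ A ∧ Cl Z X t p U ∧ U ∩ X = {v} ∧ U \ Z = {e}

/-- A link: it leads from `e` to `f`, both outside `Z`, and does not meet `X`. -/
def Lk (A Z X : Finset V) (t p : V → V) (e f : V) (U : Finset V) : Prop :=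
  U ⊆ A ∧ Cl Z X t p U ∧ U ∩ X = ∅ ∧ U \ Z = {e, f}

/-- The arc from position `2 a` to position `2 b + 1` on the circuit of `z`. -/
def Arc (n : Equiv.Perm V) (z : V) (a b : ℕ) : Finset V :=
  (Finset.Icc (2 * a) (2 * b + 1)).image fun j => (n ^ j) z

end

/-! ### Removing even circuits -/

/-- CLOSEH. `FRC.CloseStmt` with a stronger last clause. Proof: as `Helper33/FRC/CLOSE.lean`
(induction on `|Z|`, one pair `z`, `w = p z` is removed at a time, `t₁ x = t w` if `t x = z`,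
`t₁ x = t z` if `t x = w`). For the last clause: let `X ⊆ A` with `z ∈ X ↔ w ∈ X`; then
`dm t₁ (X \ {z, w}) ≤ dm t X`: if `t z = w` nothing changes; otherwise let `x = t z`, `y = t w`
(then `x, y ∈ A \ {z, w}` and `t₁` exchanges them); the other edges of `t` and `t₁` are the same; if
`x ∈ X`, `y ∉ X` (so `x` counts on the left) then on the right `w` counts if `z, w ∈ X`, and `x` counts if
`z, w ∉ X`; the same with `x`, `y` exchanged. Induction for `X \ {z, w}`, which is closed under `p` on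
`Z \ {z, w}`. -/
def ClosehStmt : Prop := ∀ (V : Type) [Fintype V] [DecidableEq V] (A Z : Finset V) (t p : V → V),
  Prg A t → Z ⊆ A → Prg Z p → ∃ t' : V → V, Red A Z t p t'

/-- DISGH. `FRC.DisgStmt` with the new last clause. Proof: the file `Helper9/FRC/DISG.lean` with
CLOSEH for CLOSE. -/
def DisghStmt : Prop := ∀ (V : Type) [Fintype V] [DecidableEq V] (n : Equiv.Perm V)
  (A Z : Finset V) (t : V → V) (l : ℕ), Inv n A → Prg A t → Odd l →
    Bl n A t (l + 2 * ((Z.card - 2) / 4)) → Z ⊆ A → Cir n Z → Even Z.card →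
    ∃ p t' : V → V, Alg n Z p ∧ Red A Z t p t' ∧ Bl n (A \ Z) t' l

/-- EXTH. The solution of the smaller state gives one of the larger. Proof: let `P'`, `Y'` be the
solution for `A \ Z`, `t'`; `P = p` on `Z`, `P = P'` elsewhere. `dm t' Y' = 0`, so there is `W ⊆ Z`
closed under `p` with `dm t (Y' ∪ W) = 0`; `Y = Y' ∪ W` is closed under `t` and `P`. `p` has no fixed
points on `Z`. Let `S`, `S'` be as in `SolH`. `S ∩ Z` is `∅` or `Z` (circuit), `|Z|` is even, so
`S \ Z` is odd and closed under `n`, the same for `S'`. `S \ Y` is closed under `p` on `Z`, so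
`dm t' ((S \ Y) \ Z) ≤ dm t (S \ Y)`, and `(S \ Y) \ Z = (S \ Z) \ Y'`. -/
def ExthStmt : Prop := ∀ (V : Type) [Fintype V] [DecidableEq V] (n : Equiv.Perm V)
  (A Z : Finset V) (t p t' : V → V), Inv n A → Prg A t → Z ⊆ A → Cir n Z → Even Z.card →
    Alg n Z p → Red A Z t p t' → SolH n (A \ Z) t' → SolH n A t

/-! ### The final step -/

open Pool.Agent.Helper55.FR in
/-- ENDH. Proof: as `Helper77/FRC/ENDF.lean`: `q v = m v` for `v ∈ Y`, `q v = P v` for `v ∉ Y` is the
matching `M₂`. Suppose that there is no `M₃` and take `Q` from `FRB.certificate` (with `M₁ = M`). Let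
`o(K)` be the number of leaving edges outside `M₂`, `g(K)` the number of odd components of
`G - (M ∪ M₂)` in `K` (they are `≥ 1` for `K ∈ Q`: `K` is a union of components and odd), `ν` the
number of all odd components. Let `Q₁` be the set of `K ∈ Q` with all leaving edges in `M`. The
first inequality for `M` gives `4 + 2 |Q \ Q₁| ≤ 2 |Q|` because for `K ∈ Q \ Q₁` the number of leaving
edges outside `M` is not 0 and even (`two_le_cut` or `cutN_parity_pm` in `Helper5.FRB`), so `|Q₁| ≥ 2`;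
let `K ≠ K'` in `Q₁`. The second inequality for `M₂` (all other terms `o + g - 1` are `≥ 0`) gives
`o(K) + g(K) + o(K') + g(K') ≤ ν`.
`K` and `K'` are closed under `n`. `o(K) = dm m (K \ Y)` (leaving edges of `K` are `x, m x`; not in `M₂`
iff `x ∉ Y`, because `Y` is closed under `m`). Let `r v = n v` if `P v = v`; `r v = n⁻¹ v` if
`P v = n v`; and if `P v = n⁻¹ v`: `r v = v` if `P (n v) = n v`, else `r v = n v` (see ENDF): an
involution preserving the components, `r v = v` only for `v = n⁻¹ u` with `P u = u`, and every odd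
component contains a fixed point of `r`. So the number `ν - g(K) - g(K')` of the odd components in
the complement of `K ∪ K'` is at most `fx P univ - fx P K - fx P K'`. This contradicts `SolH` for
`S = K`, `S' = K'`. -/
def EndhStmt : Prop := ∀ (V : Type) [Fintype V] [DecidableEq V] (G : SimpleGraph V)
  [DecidableRel G.Adj], G.IsRegularOfDegree 3 → ∀ M : G.Subgraph, M.IsPerfectMatching →
    ∀ (n : Equiv.Perm V) (m : V → V), Cub n m → (∀ x y, G.Adj x y ↔ adj n m x y) →
      (∀ x y, M.Adj x y ↔ y = m x) → SolH n univ m →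
      ∃ N₁ N₂ : G.Subgraph, N₁.IsPerfectMatching ∧ N₂.IsPerfectMatching ∧
        ∀ e : Sym2 V, ¬ (e ∈ M.edgeSet ∧ e ∈ N₁.edgeSet ∧ e ∈ N₂.edgeSet)

/-! ### Tools on the even circuit -/

/-- ARCQ. The pairing of `Z` which is shifted on the arc between the positions `2 a` and
`2 b + 1`. Proof: lemma `enum` in `Helper9.FRC.NPR`: every `v ∈ Z` is `(n ^ j) z` for exactly one
`j < |Z|`. `p` exchanges the positions `2 j` and `2 j + 1` (induction on `j`: `p` of position `2 j` is
position `2 j + 1` or `2 j - 1`, and position `2 j - 1` is paired with `2 j - 2`). Let `q` be `p` at the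
positions `< 2 a` and `> 2 b + 1`; the positions `2 a` and `2 b + 1` are fixed, and the positions
`2 j + 1`, `2 j + 2` are exchanged for `a ≤ j < b`. If `a = 0` and `2 b + 2 = |Z|` the two fixed points
are consecutive: then let `q` exchange them. -/
def ArcqStmt : Prop := ∀ (V : Type) [Fintype V] [DecidableEq V] (n : Equiv.Perm V)
  (Z : Finset V) (p : V → V), Cir n Z → Even Z.card → Alg n Z p → ∀ z ∈ Z, p z = n z →
    (∀ j, 2 * j + 1 < Z.card → p ((n ^ (2 * j)) z) = (n ^ (2 * j + 1)) z ∧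
      p ((n ^ (2 * j + 1)) z) = (n ^ (2 * j)) z) ∧
    ∀ a b, a < b → 2 * b + 1 < Z.card → ∃ q : V → V,
      (∀ v ∈ Z, q v ∈ Z ∧ q (q v) = v ∧ (q v = v ∨ q v = n v ∨ n (q v) = v)) ∧
      (∀ v ∈ Z, q v = v → (v = (n ^ (2 * a)) z ∨ v = (n ^ (2 * b + 1)) z) ∧ q (n v) ≠ n v) ∧
      ((q ((n ^ (2 * a)) z) = (n ^ (2 * a)) z ∧ q ((n ^ (2 * b + 1)) z) = (n ^ (2 * b + 1)) z) ∨
        (q ((n ^ (2 * a)) z) = (n ^ (2 * b + 1)) z ∧
          q ((n ^ (2 * b + 1)) z) = (n ^ (2 * a)) z)) ∧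
      ∀ v ∈ Z, v ∉ Arc n z a b → q v = p v

/-- COMP. The smallest closed set containing `x`, and its ends. Proof: let `U` be the intersection
of all `U' ⊆ A` closed (`Cl`) and containing `x`. Use PATH for `U`, `a = t` (no fixed points) and
`b v = p v` for `v ∈ Z \ X`, `b v = v` otherwise: a nonempty `E ⊆ U` closed under both is `U` (if
`x ∈ E` then `U ⊆ E`; otherwise `U \ E` is closed and contains `x`, so `U ⊆ U \ E`). -/
def CompStmt : Prop := ∀ (V : Type) [Fintype V] [DecidableEq V] (A Z X : Finset V) (t p : V → V),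
  Prg A t → Z ⊆ A → Prg Z p → X ⊆ Z → (∀ x ∈ X, p x ∈ X) → ∀ x ∈ A, ∃ U ⊆ A, x ∈ U ∧
    Cl Z X t p U ∧ (∀ U' ⊆ A, x ∈ U' → Cl Z X t p U' → U ⊆ U') ∧
    ((U.filter fun v => v ∉ Z ∨ v ∈ X).card = 0 ∨ (U.filter fun v => v ∉ Z ∨ v ∈ X).card = 2)

/-- DICH. From every `e` outside `Z` a link or a tail starts. Proof: COMP for `x = e`: `e` is one of
the two ends, the other one is outside `Z` or in `X` (and every element of `X` in `U` is an end). -/
def DichStmt : Prop := ∀ (V : Type) [Fintype V] [DecidableEq V] (A Z X : Finset V) (t p : V → V),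
  Prg A t → Z ⊆ A → Prg Z p → X ⊆ Z → (∀ x ∈ X, p x ∈ X) → ∀ e ∈ A \ Z,
    ((∃ f ∈ A \ Z, f ≠ e ∧ ∃ U, Lk A Z X t p e f U ∧
        ∀ U' ⊆ A, e ∈ U' → Cl Z X t p U' → U ⊆ U') ∨
      ∃ v ∈ X, ∃ U, Tl A Z X t p v e U ∧ ∀ U' ⊆ A, e ∈ U' → Cl Z X t p U' → U ⊆ U')

/-- UNIQ. Tails from the same vertex have the same end, tails with the same end start at the same
vertex. Proof: let `U`, `U'` be the tails, with `v = v'` or `e = e'`. `U ∩ U'` is closed and contains
`v` (or `e`). By COMP the smallest closed set containing it has exactly two ends (not 0, `v`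
respectively `e` is one); it is contained in `U`, whose only ends are `v` and `e`, and in `U'`, whose
only ends are `v'` and `e'`. So `{v, e} = {v', e'}`, where `v, v' ∈ X ⊆ Z` and `e, e'` are not in
`Z`. -/
def UniqStmt : Prop := ∀ (V : Type) [Fintype V] [DecidableEq V] (A Z X : Finset V) (t p : V → V),
  Prg A t → Z ⊆ A → Prg Z p → X ⊆ Z → (∀ x ∈ X, p x ∈ X) → ∀ v v' e e' U U',
    Tl A Z X t p v e U → Tl A Z X t p v' e' U' → (v = v' ↔ e = e')

/-- MARK. A pair of `Z` on a chain of `t'` between `e` and `t' e`: if the arc `X` contains of the chain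
of `e` only the pair `v, p v`, then `v` has a tail with end `e` or `t' e`.
Proof: `D` is a set with: `e ∈ D`, closed (`Cl Z ∅`), and contained in every closed set containing
`e` (or `t' e`). DICH (with `X`) for `e`: a link `U` is closed in the sense of `Cl Z ∅` (it does not meet
`X`), so `D ⊆ U` and `v ∈ U ∩ X = ∅`, a contradiction. So there is a tail `U` from some `u ∈ X` to `e`,
contained in `D` (`D` is closed in the sense of `Cl Z X` too), so `u ∈ D ∩ X = {v, p v}`. The same for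
`t' e` and `u'`. If `u = u'` then `e = t' e` by UNIQ, a contradiction. So `u = v` or `u' = v`. -/
def MarkStmt : Prop := ∀ (V : Type) [Fintype V] [DecidableEq V] (A Z X : Finset V)
  (t p : V → V), Prg A t → Z ⊆ A → Prg Z p → X ⊆ Z → (∀ x ∈ X, p x ∈ X) → ∀ e ∈ A \ Z,
    ∀ f ∈ A \ Z, f ≠ e → ∀ D ⊆ A, e ∈ D → f ∈ D → Cl Z ∅ t p D →
      (∀ U' ⊆ A, e ∈ U' → Cl Z ∅ t p U' → D ⊆ U') → (∀ U' ⊆ A, f ∈ U' → Cl Z ∅ t p U' → D ⊆ U') →
      ∀ v ∈ X, D ∩ X = {v, p v} → ∃ U, Tl A Z X t p v e U ∨ Tl A Z X t p v f U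

/-- CHAIN. The chain of `e`, and the relation with `t'`. Proof: (1) COMP with `X = ∅` gives `D`
with exactly two ends, `e` and some `f`; `dm t D = 0`, so `dm t' (D \ Z) = 0` by `Red`, and
`D \ Z = {e, f}`, so `f = t' e`. The smallest closed set `D'` containing `f` is contained in `D`, its
ends are two, so they are `e`, `f`, and `D ⊆ D'`. (2) `{e, t e}` is closed. (3) `dm t' (U \ Z) = 0`. -/
def ChainStmt : Prop := ∀ (V : Type) [Fintype V] [DecidableEq V] (A Z : Finset V)
  (t p t' : V → V), Prg A t → Z ⊆ A → Prg Z p → Red A Z t p t' → ∀ e ∈ A \ Z,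
    (∃ D ⊆ A, Cl Z ∅ t p D ∧ D \ Z = {e, t' e} ∧
      (∀ U' ⊆ A, e ∈ U' → Cl Z ∅ t p U' → D ⊆ U') ∧
      ∀ U' ⊆ A, t' e ∈ U' → Cl Z ∅ t p U' → D ⊆ U') ∧
    (t e ∉ Z → t' e = t e) ∧
    ∀ U ⊆ A, Cl Z ∅ t p U → e ∈ U → t' e ∈ U

/-! ### Solutions -/

/-- FIN. The inequality of `SolH` follows from few inequalities. Proof: let `P` be `q` on `Z`. An
`n`-closed set `S ⊆ A` contains `C i` or is disjoint to it, the same for `Z`; if `|S|` is odd it
contains an odd number `s` of the `C i`, `s = 1` or `3`; let `s'` be the number for `S'`, so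
`s + s' ≤ 4` is 2 or 4. `fx P A = 4 + fx q Z`, `fx P S = s + (fx q Z if Z ⊆ S)`. If `S = C i` then
`dm t (S \ Y) ≥ 4`, and if also `Z ⊆ S'`: `s + s' + fx q Z + 4 > 4 + fx q Z`; if `Z` is not in `S'` and
`s' = 1`, then `S' = C j` and `2 + 4 + 4 > 6`; if `s' = 3`: `4 + 4 > 6`. The same if `S' = C i`.
Otherwise `S = C i ∪ Z` and `S' ` is the union of the other three circuits, or conversely; then all
fixed points are in `S ∪ S'` and `dm t ((C i ∪ Z) \ Y) ≥ 1`. -/
def FinStmt : Prop := ∀ (V : Type) [Fintype V] [DecidableEq V] (n : Equiv.Perm V)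
  (A : Finset V) (t : V → V) (C : Fin 4 → Finset V) (Z : Finset V), Five n A t C Z →
    ∀ (P : V → V) (Y : Finset V), Y ⊆ A →
      (∀ v ∈ A, P v ∈ A ∧ P (P v) = v ∧ (P v = v ∨ P v = n v ∨ n (P v) = v)) →
      (∀ v ∈ Y, t v ∈ Y ∧ P v ∈ Y) →
      (∀ v ∈ A, P v = v → v ∈ Y ∧ P (n v) ≠ n v) →
      (∀ i, fx P (C i) = 1) → fx P Z ≤ 2 → (∀ i, 4 ≤ dm t (C i \ Y)) →
      (∀ i, 1 ≤ dm t ((C i ∪ Z) \ Y)) → SolH n A t

/-- PMF. Solutions with one vertex of `Y` on every odd circuit. Proof (may assume NPR, FIN): `P` is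
`q` on `Z` and on `C i` the pairing with fixed point `x i`, where `Y ∩ C i = {x i}`.
`dm t (C i \ Y) ≥ dm t (C i) - 1 ≥ 4`: if `v ∈ C i`, `v ≠ x i`, `t v ∉ C i` then `v ∉ Y` and
`t v ∉ C i \ Y`. Let `S = C i ∪ Z` and `S'` the union of the other three circuits; `dm t (S \ Y) =
dm t (S' \ Y)` because `Y` is closed under `t`; `dm t S' ≥ 5`, and at most three of the `v ∈ S'` with
`t v ∉ S'` are in `Y`. -/
def PmfStmt : Prop := ∀ (V : Type) [Fintype V] [DecidableEq V] (n : Equiv.Perm V)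
  (A : Finset V) (t : V → V) (C : Fin 4 → Finset V) (Z : Finset V), Five n A t C Z →
    ∀ (q : V → V) (Y : Finset V), Y ⊆ A → Half n Z t q Y →
      (∀ i, ∃ x, Y ∩ C i = {x} ∧ t x ∉ C i) → SolH n A t

/-- PMH. If `t'` links two pairs of odd circuits. Proof (may assume PMF, CHAIN): let
`K = {x, t' x, y, t' y}`, `dm t' K = 0`, so there is `W ⊆ Z` closed under `p` with `dm t (K ∪ W) = 0`.
`Y = K ∪ W`, `q = p` (no fixed points). `t x ∉ C 0`: otherwise `t' x = t x` by CHAIN. -/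
def PmhStmt : Prop := ∀ (V : Type) [Fintype V] [DecidableEq V] (n : Equiv.Perm V)
  (A : Finset V) (t : V → V) (C : Fin 4 → Finset V) (Z : Finset V), Five n A t C Z →
    ∀ p t' : V → V, Alg n Z p → Red A Z t p t' → ∀ x ∈ C 0, t' x ∈ C 1 → ∀ y ∈ C 2, t' y ∈ C 3 →
      SolH n A t

/-- ARCF. Proof (may assume ARCQ, PMF): let `q` be the pairing of ARCQ and
`Y = U₁ ∪ U₂ ∪ L`. `Y` meets the arc only in the two ends of the arc, outside the arc `q = p`, so
`Y` is closed under `t` and `q`. `Y \ Z = {e₁, e₂, e₃, e₄}`. `t e₁ ∉ C i₁` etc.: `t e₁ ∈ U₁` is not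
`e₁`, so it is in `Z` (`U₁ \ Z = {e₁}`); `t e₃ ∈ L` is in `Z` or `e₄`. -/
def ArcfStmt : Prop := ∀ (V : Type) [Fintype V] [DecidableEq V] (n : Equiv.Perm V)
  (A : Finset V) (t : V → V) (C : Fin 4 → Finset V) (Z : Finset V), Five n A t C Z →
    ∀ p : V → V, Alg n Z p → ∀ z ∈ Z, p z = n z → ∀ a b, a < b → 2 * b + 1 < Z.card →
      ∀ (e : Fin 4 → V) (U₁ U₂ L : Finset V) (i : Fin 4 → Fin 4), Function.Injective i →
        (∀ k, e k ∈ C (i k)) →
        Tl A Z (Arc n z a b) t p ((n ^ (2 * a)) z) (e 0) U₁ →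
        Tl A Z (Arc n z a b) t p ((n ^ (2 * b + 1)) z) (e 1) U₂ →
        Lk A Z (Arc n z a b) t p (e 2) (e 3) L → SolH n A t

/-! ### The star: all chains between different odd circuits end in `C 3` -/

/-- DESC. The descent on arcs. Proof (may assume ARCQ, DICH, UNIQ, CHAIN): take the arc (`a < b`)
with these properties and `b - a` minimal, `i ≠ j`, both not 3. Let `k` be the third index. There is
`g ∈ C k` with `t' g ∉ C k` (`dm t' (C k)` is odd because `dm t' (C k)` has the parity of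
`|C k|`, SUBM), so `t' g ∈ C 3`. DICH for `g` and the arc `X`: either there is a link from `g` to some
`f`; it is closed in the sense of `Cl Z ∅`, so it contains `t' g` by CHAIN, `f = t' g`, and we are done.
Or there is `v ∈ X` and a tail `U` from `v` to `g`. `v` is a position `2 c` or `2 c + 1`,
`a ≤ c ≤ b`. If `c = a`: `v ≠ s`, `s` the position `2 a`, by UNIQ (`g ∈ C k`, `e ∈ C i`). If
`v = p s` then `U₁ ∪ U` is closed in the sense of `Cl Z ∅`, and contains outside `Z` only `e` and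
`g`, so `t' e = g` or `t' e = e` by CHAIN, which is impossible (star, `Red`). The same for `c = b`. So
`a < c < b`. If `v` is the position `2 c`, then the arc from `c` to `b` with `U`, `U₂` is shorter
(`Tl` holds for the smaller arc: `U` meets it only in `v`, `U₂` only in its last point; a point of
`U` or `U₂` outside the smaller arc and in the larger one does not exist). If it is `2 c + 1`, take
the arc from `a` to `c`. -/
def DescStmt : Prop := ∀ (V : Type) [Fintype V] [DecidableEq V] (n : Equiv.Perm V)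
  (A : Finset V) (t : V → V) (C : Fin 4 → Finset V) (Z : Finset V), Five n A t C Z →
    ∀ p t' : V → V, Alg n Z p → Red A Z t p t' → (∀ i ≠ 3, ∀ x ∈ C i, t' x ∈ C i ∨ t' x ∈ C 3) →
      ∀ z ∈ Z, p z = n z →
      (∃ a b, a < b ∧ 2 * b + 1 < Z.card ∧ ∃ i j, i ≠ j ∧ i ≠ 3 ∧ j ≠ 3 ∧ ∃ e ∈ C i, ∃ f ∈ C j,
        (∃ U, Tl A Z (Arc n z a b) t p ((n ^ (2 * a)) z) e U) ∧
        ∃ U, Tl A Z (Arc n z a b) t p ((n ^ (2 * b + 1)) z) f U) →
      ∃ a b, a < b ∧ 2 * b + 1 < Z.card ∧ ∃ i j k, i ≠ j ∧ i ≠ k ∧ j ≠ k ∧ i ≠ 3 ∧ j ≠ 3 ∧ k ≠ 3 ∧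
        ∃ e ∈ C i, ∃ f ∈ C j, ∃ g ∈ C k, ∃ h ∈ C 3,
        (∃ U, Tl A Z (Arc n z a b) t p ((n ^ (2 * a)) z) e U) ∧
        (∃ U, Tl A Z (Arc n z a b) t p ((n ^ (2 * b + 1)) z) f U) ∧
        ∃ U, Lk A Z (Arc n z a b) t p g h U

/-- LOOP. Two looping leaves. Proof (may assume ARCQ, MARK, CHAIN, DESC, ARCF): call `v ∈ Z` marked
with `i ≠ 3` if it is in the chain `D(e)` (CHAIN) of some `e ∈ C i` with `t' e ∈ C i`. A marked pair
`v, p v` has the same marks (`D(e)` is closed). No `v` has two marks `i ≠ j`: let `v ∈ D(e) ∩ D(f)`; the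
set `D(e) \ D(f)` is closed (`t`, `p` are involutions), if it contained `e` then it would contain
`D(e) ∋ v`; so `e ∈ D(f)`, `e ∈ {f, t' f} ⊆ C j`, a contradiction. By hypothesis `t x ∈ Z` is marked
with `i₀` and `t y ∈ Z` with `j₀ ≠ i₀`. Choose `z ∈ Z` with `p z = n z` (any `z` or `p z`). Positions: there
are pairs `a`, `b` (positions `2 a`, `2 a + 1` and `2 b`, `2 b + 1`), `a < b`, marked with different
marks `i`, `j`; choose them with `b - a` minimal. Then no pair strictly between is marked (if it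
has mark `w`, replace `a` if `w ≠ j`, and `b` otherwise). Let `X` be the arc from `a` to `b`, and
`s` the position `2 a`, in `D(e)`, `e, t' e ∈ C i`. `D(e) ∩ X = {s, p s}` (the elements of
`D(e) ∩ Z` are marked with `i`). MARK: `s` has a tail with end in `C i`; the same for the position
`2 b + 1` and `C j`. Now DESC and ARCF. -/
def LoopStmt : Prop := ∀ (V : Type) [Fintype V] [DecidableEq V] (n : Equiv.Perm V)
  (A : Finset V) (t : V → V) (C : Fin 4 → Finset V) (Z : Finset V), Five n A t C Z →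
    ∀ p t' : V → V, Alg n Z p → Red A Z t p t' → (∀ i ≠ 3, ∀ x ∈ C i, t' x ∈ C i ∨ t' x ∈ C 3) →
      ∀ i j, i ≠ j → i ≠ 3 → j ≠ 3 → ∀ x ∈ C i, t x ∈ Z → t' x ∈ C i → ∀ y ∈ C j, t y ∈ Z →
        t' y ∈ C j → SolH n A t

/-- RTAIL. From every vertex `w` of `Z` with `t w` outside `Z` one can get to `C`, if some chain
starts and ends in `C` (and `t w ∉ C`). Proof (may assume ARCQ, MARK, CHAIN): first let
`p w = n w`. Let `D` be the chain of `x` (CHAIN), `D \ Z = {x, t' x} ⊆ C`. It contains `t x ∈ Z`, and not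
`w` (otherwise `t w ∈ D \ Z`). Positions are counted from `z = w`; let `b ≥ 1` be minimal such that
the pair `2 b`, `2 b + 1` is contained in `D` (the pair 0, 1 is not), `X` the arc from 0 to `b`, `r` the
position `2 b + 1`; `D ∩ X = {r, p r}`. By MARK `r` has a tail `U₂` with end `e = x` or `t' x`. Let
`U = {w, t w} ∪ U₂` and `q` from ARCQ with `a = 0`: `U ∩ X = {w, r}`. If `n (p w) = w`: apply this to
`n⁻¹` instead of `n` (`Cir`, `Alg` and the conditions on `q` do not change; that no two fixed points are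
consecutive is symmetric). -/
def RtailStmt : Prop := ∀ (V : Type) [Fintype V] [DecidableEq V] (n : Equiv.Perm V)
  (A Z C : Finset V) (t p t' : V → V), Prg A t → Z ⊆ A → Cir n Z → Even Z.card → Alg n Z p →
    Red A Z t p t' → C ⊆ A \ Z → ∀ x ∈ C, t x ∈ Z → t' x ∈ C → ∀ w ∈ Z, t w ∉ Z → t w ∉ C →
      ∃ (q : V → V) (U : Finset V), U ⊆ A ∧ Half n Z t q U ∧ w ∈ U ∧ ∃ e ∈ C, U \ Z = {t w, e}

/-- STARB. The star with at most one looping leaf `C 0`. Proof (may assume NPR, SLIDE, CHAIN, FIN,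
SUBM): SLIDE for `C 3` with `b x = t' x` if `t' x ∈ C 3` and `b x = x` otherwise, and the colour of
`x` is the `i ≠ 3` with `t' x ∈ C i` (as in `Helper2/FRC/STAR.lean`; the numbers of the colours are
`dm t' (C i)`, odd). It gives the pairing `q₃` with fixed point `p₃` and `Y₃`; let `y i ∈ Y₃` be the
point with `t' (y i) ∈ C i`, `x i = t' (y i)`. `Y' = Y₃ ∪ {x 0, x 1, x 2}` is closed under `t'`, so there is
`W ⊆ Z` closed under `p` with `dm t (Y' ∪ W) = 0`; `Y = Y' ∪ W`; `P` is `q₃` on `C 3`, `p` on `Z`, the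
pairing with fixed point `x i` on `C i`. `fx P Z = 0`. `dm t (C i \ Y) ≥ 4` for `i ≠ 3` (`dm t (C i) ≥ 5`,
`Y ∩ C i = {x i}`). `dm t (S \ Y) ≥ dm t' ((S \ Z) \ Y')` for `S = C 3`, `C i ∪ Z` (`Red`).
`dm t' (C 3 \ Y') ≥ dm t' (C 1) - 1 + dm t' (C 2) - 1 ≥ 8` (the points of `C 3` with `t'`-partner in
`C 1` or `C 2`, except `y 1`, `y 2`); `dm t' (C i \ Y') ≥ dm t' (C i) - 1`. So FIN applies if
`dm t ((C 0 ∪ Z) \ Y) ≥ 1`. This holds if `dm t' (C 0) ≥ 3`. Otherwise `dm t' (C 0) = 1` (it is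
odd), and if it does not hold then every `x ∈ C 1` with `t x ∈ Z` is in `Y` (`t x ∈ (C 0 ∪ Z) \ Y`
would leave `C 0 ∪ Z`), so it is `x 1`; the same for `C 2`. -/
def StarbStmt : Prop := ∀ (V : Type) [Fintype V] [DecidableEq V] (n : Equiv.Perm V)
  (A : Finset V) (t : V → V) (C : Fin 4 → Finset V) (Z : Finset V), Five n A t C Z →
    ∀ p t' : V → V, Alg n Z p → Red A Z t p t' → (∀ i ≠ 3, ∀ x ∈ C i, t' x ∈ C i ∨ t' x ∈ C 3) →
      5 ≤ dm t' (C 1) → 5 ≤ dm t' (C 2) →
      SolH n A t ∨ (dm t' (C 0) = 1 ∧ ((C 1).filter fun x => t x ∈ Z).card ≤ 1 ∧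
        ((C 2).filter fun x => t x ∈ Z).card ≤ 1)

/-- STARC1. Proof (may assume RTAIL, CHAIN, PMF): let `w = t x ∈ Z` (`t w = x ∈ C 1`). There is
`u ∈ C 0` with `t u ∈ Z`, `t' u ∈ C 0`: at least five `u ∈ C 0` have `t u ∉ C 0`, only one has
`t' u ∉ C 0`; if `t u ∉ Z` then `t' u = t u` (CHAIN). RTAIL gives `q`, `U` and `e ∈ C 0`. There is `y ∈ C 2`
with `t y ∈ C 3`: at least five `y ∈ C 2` have `t y ∉ C 2`, for at most one of them `t y ∈ Z`,
otherwise `t' y = t y ∈ C 3` (star). `Y = U ∪ {y, t y}`, PMF. -/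
def Starc1Stmt : Prop := ∀ (V : Type) [Fintype V] [DecidableEq V] (n : Equiv.Perm V)
  (A : Finset V) (t : V → V) (C : Fin 4 → Finset V) (Z : Finset V), Five n A t C Z →
    ∀ p t' : V → V, Alg n Z p → Red A Z t p t' → (∀ i ≠ 3, ∀ x ∈ C i, t' x ∈ C i ∨ t' x ∈ C 3) →
      dm t' (C 0) = 1 → ((C 2).filter fun x => t x ∈ Z).card ≤ 1 → ∀ x ∈ C 1, t x ∈ Z →
      SolH n A t

/-- STARC2. Proof (may assume NPR, SLIDE, RTAIL, CHAIN, FIN, SUBM): for `i = 1, 2` all `x ∈ C i` have
`t x ∈ C i ∪ C 3` (`t x ∉ Z`, so `t' x = t x`). SLIDE for `C 3` with `b x = t x` if `t x ∈ C 3`, else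
`b x = x`; the colour of `x` with `t x ∉ C 3` is 1 if `t x ∈ C 1`, 2 if `t x ∈ C 2` and 0 if
`t x ∈ C 0 ∪ Z`; the numbers are `dm t (C 1)`, `dm t (C 2)` and `dm t (C 3) - dm t (C 1) - dm t (C 2)`, all
odd. It gives `q₃`, `p₃`, `Y₃`, with `v i ∈ Y₃` the point of colour `i`. If `t (v 0) ∈ C 0` let
`U = {v 0, t (v 0)}`, `q = p`. If `w = t (v 0) ∈ Z` (so `t w = v 0 ∈ C 3`): `q`, `U`, `e` from RTAIL for `C 0`
(there is `x ∈ C 0` with `t x ∈ Z`, `t' x ∈ C 0` as in STARC1), `U \ Z = {v 0, e}`. Let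
`Y = U ∪ Y₃ ∪ {t (v 1), t (v 2)}` and `P` the pairings. `Y ∩ C i` has one point `x i` for `i ≠ 3`, and
`t (x i) ∉ C i`, `Y ∩ C 3 = Y₃`. FIN: `dm t (C i \ Y) ≥ 5 - 1` for `i ≠ 3`,
`dm t (C 3 \ Y) ≥ dm t (C 1) + dm t (C 2) - 2 ≥ 8`. For `S = C i ∪ Z` and the union `S'` of the other
three circuits `dm t (S \ Y) = dm t (S' \ Y)`, `dm t S' ≥ 5` and at most three `v ∈ S' ∩ Y` have
`t v ∉ S'`: `i = 0`: only `v 0` (`t (x 1), t (x 2) ∈ C 3`); `i = 1`: `x 0`, `v 0`, `v 1` (`x 2` and `v 2` do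
not); `i = 2` the same; `i = 3`: `x 0, x 1, x 2`. -/
def Starc2Stmt : Prop := ∀ (V : Type) [Fintype V] [DecidableEq V] (n : Equiv.Perm V)
  (A : Finset V) (t : V → V) (C : Fin 4 → Finset V) (Z : Finset V), Five n A t C Z →
    ∀ p t' : V → V, Alg n Z p → Red A Z t p t' → (∀ i ≠ 3, ∀ x ∈ C i, t' x ∈ C i ∨ t' x ∈ C 3) →
      dm t' (C 0) = 1 → (∀ x ∈ C 1, t x ∉ Z) → (∀ x ∈ C 2, t x ∉ Z) → SolH n A t

/-- STARH. Proof (may assume LOOP, STARB, STARC1, STARC2, CHAIN, SUBM): call the leaf `i ≠ 3` looping if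
there is `x ∈ C i` with `t x ∈ Z`, `t' x ∈ C i`. Two looping leaves: LOOP. Otherwise two leaves are not
looping; after a permutation of `0, 1, 2` (`Five`, the star property and the claim do not change for
`C ∘ σ` with `σ 3 = 3`) these are 1 and 2. A leaf `i` which is not looping has
`dm t' (C i) ≥ dm t (C i) ≥ 5`: for `x ∈ C i` with `t x ∉ C i`: if `t x ∉ Z` then `t' x = t x ∉ C i`; if
`t x ∈ Z` then `t' x ∉ C i`. STARB gives the claim or `dm t' (C 0) = 1` etc. If some `x ∈ C 1` has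
`t x ∈ Z`: STARC1; if some `x ∈ C 2` has `t x ∈ Z`: STARC1 for `C ∘ (1 2)`; otherwise STARC2. -/
def StarhStmt : Prop := ∀ (V : Type) [Fintype V] [DecidableEq V] (n : Equiv.Perm V)
  (A : Finset V) (t : V → V) (C : Fin 4 → Finset V) (Z : Finset V), Five n A t C Z →
    ∀ p t' : V → V, Alg n Z p → Red A Z t p t' → (∀ i ≠ 3, ∀ x ∈ C i, t' x ∈ C i ∨ t' x ∈ C 3) →
      SolH n A t

/-- FOURH. Proof (may assume PMH, STARH, CLOSEH, EVENP, SUBM): EVENP gives `p` with `Alg n Z p`, CLOSEH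
gives `t'`. Then as in `Helper59/FRC/FOUR.lean`: let `E i j` say that some `x ∈ C i` has `t' x ∈ C j`; it
is symmetric, every `i` has `E i j` for some `j ≠ i` (`dm t' (C i)` is odd, SUBM for `t'`). If `E` has a
perfect matching: PMH for `C ∘ σ`; otherwise a star: STARH for `C ∘ σ`. -/
def FourhStmt : Prop := ∀ (V : Type) [Fintype V] [DecidableEq V] (n : Equiv.Perm V)
  (A : Finset V) (t : V → V) (C : Fin 4 → Finset V) (Z : Finset V), Five n A t C Z → SolH n A t

/-- TWOH. Two odd circuits and `Z`. Proof (may assume NPR, EVENP, CLOSEH, CHAIN, SUBM): `p`, `t'` as in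
FOURH. `dm t' (C 0)` is odd, so there is `x ∈ C 0` with `t' x ∈ C 1`. `K = {x, t' x}`, `dm t' K = 0`, so there
is `W`; `Y = K ∪ W`, `P = p` on `Z`, the pairings with fixed points `x`, `t' x` on `C 0`, `C 1`.
`fx P A = 2`. Two disjoint odd closed sets `S`, `S'` contain one of the `C i` each, so both fixed
points, and one of them is `C i` itself (`Z` is contained in at most one of them), and
`dm t (C i \ Y) ≥ 5 - 1`. -/
def TwohStmt : Prop := ∀ (V : Type) [Fintype V] [DecidableEq V] (n : Equiv.Perm V)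
  (A : Finset V) (t : V → V) (C : Fin 2 → Finset V) (Z : Finset V), (∀ v, n v ≠ v) → Prg A t →
    Bl n A t 5 → (∀ i, Cir n (C i)) → (∀ i, Odd (C i).card) →
    (∀ i j, i ≠ j → Disjoint (C i) (C j)) → Cir n Z → Even Z.card → (∀ i, Disjoint (C i) Z) →
    A = univ.biUnion C ∪ Z → SolH n A t

open Classical in
/-- INDH. Proof (may assume DISGH, EXTH, FOURH, TWOH, EVENP): strong induction on `|A|`. If some even
circuit `Z ⊆ A` is not `D`: the even circuits in `A \ Z` are those in `A` except `Z`, the sum goes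
down by `(|Z| - 2) / 4`; DISGH with `l = 5 + 2 * (the sum for A \ Z)`, and EXTH (see
`Helper44/FRC/INDG.lean`). Otherwise `A` is the disjoint union of `D` and odd circuits, at most
four, and an even number because `|A|` is even. No odd circuit: `A = D`, `P` is a pairing of `D`
(EVENP), `Y = ∅`, and no closed `S ⊆ D` is odd. Two: TWOH. Four: FOURH. -/
def IndhStmt : Prop := ∀ (V : Type) [Fintype V] [DecidableEq V] (n : Equiv.Perm V)
  (A D : Finset V) (t : V → V), (∀ v, n v ≠ v) → Inv n A → Prg A t → D ⊆ A → Cir n D →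
    Even D.card →
    Bl n A t (5 + 2 * ∑ C ∈ A.powerset.filter (fun C => Cir n C ∧ Even C.card ∧ C ≠ D),
      (C.card - 2) / 4) →
    (∀ F : Finset (Finset V), (∀ C ∈ F, C ⊆ A ∧ Cir n C ∧ Odd C.card) → F.card ≤ 4) →
    SolH n A t

end Pool.Agent.Helper5.FRD
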