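import Pool.Agent.Helper5.FRD.Goals
import Pool.Agent.Helper5.FRC.MainG

/-!
# Four odd circuits and one even circuit of arbitrary length: assembly
-/

set_option autoImplicit false

namespace Pool.Agent.Helper5.FRD

open Finset
open Pool.Agent.Helper5.FRC
open Pool.Agent.Helper55.FR (Cub adj OriStmt IfxStmt dF dM)

/-- The final statement. -/
def MainHStmt : Prop := ∀ (V : Type) [Fintype V] [DecidableEq V] (G : SimpleGraph V)
  [DecidableRel G.Adj], G.IsRegularOfDegree 3 → ∀ M : G.Subgraph, M.IsPerfectMatching →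
    {C : (G.deleteEdges M.edgeSet).ConnectedComponent | Odd C.supp.ncard}.ncard ≤ 4 →
    ∀ D : Finset (G.deleteEdges M.edgeSet).ConnectedComponent, D.card ≤ 1 →
    (∀ K : Finset V, Odd K.card → (∀ x ∈ K, ∀ y ∉ K, G.Adj x y → M.Adj x y) →
      ∀ F : Finset (G.deleteEdges M.edgeSet).ConnectedComponent,
        (∀ C ∈ F, Even C.supp.ncard ∧ C ∉ D) →
        3 + 2 * D.card + 2 * ∑ C ∈ F, (C.supp.ncard - 2) / 4 ≤
          ((K ×ˢ Kᶜ).filter fun p => G.Adj p.1 p.2).card) →
    ∃ N₁ N₂ : G.Subgraph, N₁.IsPerfectMatching ∧ N₂.IsPerfectMatching ∧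
      ∀ e : Sym2 V, ¬ (e ∈ M.edgeSet ∧ e ∈ N₁.edgeSet ∧ e ∈ N₂.edgeSet)

theorem exists_cir {V : Type} [Fintype V] [DecidableEq V] (n : Equiv.Perm V) (v : V) :
    ∃ C : Finset V, Cir n C ∧ v ∈ C := by
  classical
  have hvv : n.SameCycle v v := Equiv.Perm.SameCycle.refl n v
  refine ⟨univ.filter fun x => n.SameCycle v x, ⟨⟨v, ?_⟩, ?_, ?_⟩, ?_⟩
  · simp [hvv]
  · intro x hx
    rw [mem_filter] at hx ⊢
    exact ⟨mem_univ _, Equiv.Perm.sameCycle_apply_right.2 hx.2⟩
  · intro D hD hne hinv
    apply Finset.Subset.antisymm hD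
    intro x hx
    obtain ⟨d, hd⟩ := hne
    have h1 := (mem_filter.1 (hD hd)).2
    have h2 := (mem_filter.1 hx).2
    have h3 : n.SameCycle d x := h1.symm.trans h2
    obtain ⟨i, -, hi⟩ := h3.exists_pow_eq'
    have h4 : ∀ i : ℕ, (n ^ i) d ∈ D := by
      intro i
      induction i with
      | zero => simpa using hd
      | succ k ih =>
        rw [pow_succ', Equiv.Perm.mul_apply]
        exact hinv _ ih
    rw [← hi]
    exact h4 i
  · simp [hvv]

theorem mainH (hori : OriStmt) (hifx : IfxStmt) (hcmp : CmpStmt) (hG : MainGStmt)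
    (hind : IndhStmt) (hend : EndhStmt) : MainHStmt := by
  classical
  intro V _ _ G _ hreg M hM h4 D hD1 hcut
  rcases Nat.lt_or_ge 0 D.card with hDp | hD0
  swap
  · have hD : D = ∅ := by rw [← card_eq_zero]; omega
    subst hD
    refine hG V G hreg M hM h4 ?_
    intro K hK hδ F hF
    have h := hcut K hK hδ F (fun C hC => ⟨hF C hC, notMem_empty _⟩)
    simpa using h
  have hDc : D.card = 1 := by omega
  obtain ⟨D₀, rfl⟩ := card_eq_one.1 hDc
  obtain ⟨n, m, hC, hadj, hMm⟩ := hori V G hreg M hM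
  by_cases hev : Even D₀.supp.ncard
  swap
  · -- an odd circuit is not needed
    refine hG V G hreg M hM h4 ?_
    intro K hK hδ F hF
    have h := hcut K hK hδ F (fun C hC => ⟨hF C hC, fun h => hev (by
      rw [mem_singleton] at h
      rw [← h]
      exact hF C hC)⟩)
    rw [card_singleton] at h
    omega
  have hinvS : ∀ S : Finset V, Inv n S → ∀ x, n x ∈ S → x ∈ S := by
    intro S hS x hx
    have h1 : S.image n = S := by
      apply eq_of_subset_of_card_le
      · intro y hy
        obtain ⟨z, hz, rfl⟩ := mem_image.1 hy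
        exact hS z hz
      · rw [card_image_of_injective _ n.injective]
    rw [← h1] at hx
    obtain ⟨z, hz, hzx⟩ := mem_image.1 hx
    rwa [← n.injective hzx]
  -- the vertex set of `D₀`
  obtain ⟨v, hv⟩ := D₀.nonempty_supp
  obtain ⟨Z, hZ, hvZ⟩ := exists_cir n v
  have hZD : D₀.supp = (Z : Set V) := by
    obtain ⟨D', hD'⟩ := hcmp V G M n m hC hadj hMm Z hZ
    have h1 : v ∈ D'.supp := by rw [hD']; exact_mod_cast hvZ
    have h2 : D' = D₀ := by
      rw [SimpleGraph.ConnectedComponent.mem_supp_iff] at h1 hv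
      rw [← h1, ← hv]
    rw [← h2, hD']
  have hZe : Even Z.card := by
    rw [hZD, Set.ncard_coe_finset] at hev
    exact hev
  have hex : ∀ F : Finset (Finset V), (∀ C ∈ F, Cir n C) →
      ∃ g : F → (G.deleteEdges M.edgeSet).ConnectedComponent,
        Function.Injective g ∧ (∀ C : F, (g C).supp.ncard = C.1.card) ∧
        ∀ C : F, (g C).supp = (C.1 : Set V) := by
    intro F hF
    have hex : ∀ C : F, ∃ D : (G.deleteEdges M.edgeSet).ConnectedComponent,
        D.supp = (C.1 : Set V) := fun C => hcmp V G M n m hC hadj hMm C.1 (hF C.1 C.2)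
    choose g hg using hex
    refine ⟨g, ?_, fun C => by rw [hg C, Set.ncard_coe_finset], hg⟩
    intro C C' h
    have h1 := hg C
    have h2 := hg C'
    rw [h] at h1
    apply Subtype.ext
    exact_mod_cast h1.symm.trans h2
  refine hend V G hreg M hM n m hC hadj hMm ?_
  refine hind V n univ Z m hC.nv (fun x _ => mem_univ _)
    (fun x _ => ⟨mem_univ _, hC.mm x, hC.mv x⟩) (subset_univ _) hZ hZe ?_ ?_
  · intro S _ hS hodd
    have hδ : ∀ x ∈ S, ∀ y ∉ S, G.Adj x y → M.Adj x y := by
      intro x hx y hy hxy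
      rw [hMm]
      rcases (hadj x y).1 hxy with h | h | h
      · exact absurd (h ▸ hS x hx) hy
      · exact absurd (hinvS S hS y (h ▸ hx)) hy
      · exact h
    set F : Finset (Finset V) := (univ : Finset V).powerset.filter
      (fun C => Cir n C ∧ Even C.card ∧ C ≠ Z) with hFdef
    obtain ⟨g, hg1, hg2, hg3⟩ := hex F (fun C hC' => (mem_filter.1 hC').2.1)
    have h1 := hcut S hodd hδ (univ.image g) (by
      intro D hD
      obtain ⟨C, -, rfl⟩ := mem_image.1 hD
      refine ⟨?_, ?_⟩
      · rw [hg2]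
        exact (mem_filter.1 C.2).2.2.1
      · rw [mem_singleton]
        intro h
        apply (mem_filter.1 C.2).2.2.2
        have h5 := hg3 C
        rw [h, hZD] at h5
        exact_mod_cast h5.symm)
    have h2 : ∑ D ∈ univ.image g, (D.supp.ncard - 2) / 4 = ∑ C ∈ F, (C.card - 2) / 4 := by
      rw [sum_image (fun a _ b _ h => hg1 h)]
      rw [← Finset.sum_coe_sort F]
      exact Finset.sum_congr rfl fun C _ => by rw [hg2 C]
    rw [h2, hifx V G n m hC hadj S, card_singleton] at h1
    have h3 : dF n S = 0 := by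
      unfold dF
      rw [card_eq_zero, filter_eq_empty_iff]
      intro x hx
      simpa using hS x hx
    rw [h3] at h1
    have h4' : dm m S = dM m S := rfl
    rw [h4']
    omega
  · intro F hF
    obtain ⟨g, hg1, hg2, -⟩ := hex F (fun C hC' => (hF C hC').2.1)
    refine le_trans ?_ h4
    rw [← Set.ncard_coe_finset, ← Nat.card_coe_set_eq]
    have h5 : Nat.card (F : Set (Finset V)) = (Set.range g).ncard := by
      rw [← Nat.card_coe_set_eq]
      exact Nat.card_congr (Equiv.ofInjective g hg1)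
    rw [h5]
    apply Set.ncard_le_ncard _ (Set.toFinite _)
    rintro _ ⟨C, rfl⟩
    show Odd (g C).supp.ncard
    rw [hg2]
    exact (hF C.1 C.2).2.2

end Pool.Agent.Helper5.FRD
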